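import Pool.Agent.Q170.PK.Near
import Pool.Agent.Q170.ZP.MultiFam
import Pool.Agent.TH971.RF.C3
import Pool.Agent.W466.ZN
import Pool.Agent.W466.ZV

/-!
Pink's conjecture for the members of families of subvarieties of powers of elliptic schemes which
degenerate along a hypersurface (helper file).
-/

set_option autoImplicit false

open Function MvPolynomial

namespace Pool.Agent.Q170.PK

open Pool.Agent.Q170.ZP.Multi Pool.Agent.TH971.RF Pool.Agent.W466.EP Pool.Agent.W466.ZP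

/-- the point is on the multisection with the given equation -/
def OnMs {R : ℕ} (φ : Fin (R + 1) → ℂ) {a b : ℂ} (P : (crv a b).Point) : Prop :=
  (P = 0 ∧ φ 0 = 0) ∨ (P ≠ 0 ∧ ∑ h : Fin (R + 1), φ h * xx P ^ (R - (h : ℕ)) = 0)

/-- The size of the coordinate of a point of a multisection. -/
theorem ms_val (V : ValuationSubring ℂ) {R d e f : ℕ} (hR : 0 < R) {δ c : ℂ} (hδ0 : δ ≠ 0)
    (hδ1 : V.valuation δ < 1) (hc : c ≠ 0) (φ u : Fin (R + 1) → ℂ) (s : Fin (R + 1) → ℕ)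
    (hφ : ∀ h : Fin (R + 1), c ^ (d + 2 * e * (h : ℕ)) * φ h = δ ^ s h * u h)
    (hs0 : s 0 = f) (hsl : s (Fin.last R) = 0)
    (hsm : ∀ h : Fin (R + 1), f * (R - (h : ℕ)) ≤ R * s h)
    (h0 : V.valuation (u 0) = 1) (hlast : V.valuation (u (Fin.last R)) = 1)
    (hmid : ∀ h, V.valuation (u h) ≤ 1) {a b : ℂ} (P : (crv a b).Point) (hP : OnMs φ P) :
    V.valuation (xx (scl (u := c ^ e) (pow_ne_zero e hc) P)) ^ R * V.valuation δ ^ f = 1 := by
  have hu0 : u 0 ≠ 0 := by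
    intro h
    rw [h, map_zero] at h0
    exact zero_ne_one h0
  rcases hP with ⟨-, h1⟩ | ⟨-, h1⟩
  · exfalso
    have h2 := hφ 0
    rw [h1, mul_zero] at h2
    exact mul_ne_zero (pow_ne_zero _ hδ0) hu0 h2.symm
  · refine root_slope V hR hδ0 hδ1 s hs0 hsl hsm u h0 hlast hmid ?_
    rw [xx_scl]
    have h6 : ∀ h : Fin (R + 1), δ ^ s h * u h * ((c ^ e) ^ 2 * xx P) ^ (R - (h : ℕ)) =
        c ^ (d + 2 * e * R) * (φ h * xx P ^ (R - (h : ℕ))) := by
      intro h
      rw [← hφ h, mul_pow, ← pow_mul, ← pow_mul, expo d e (h : ℕ) R (by have := h.2; omega),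
        pow_add]
      ring
    rw [Finset.sum_congr rfl fun h _ => h6 h, ← Finset.mul_sum, h1, mul_zero]

/-- the forms whose divisors are in general position -/
noncomputable def divs {K : Subfield ℂ} {r N q m R : ℕ}
    (U : Fin q → Fin (R + 1) → MvPolynomial (Fin (N + 1)) (MvPolynomial (Fin r) K))
    (L : Fin (m + 1) → Fin (N + 1) → ℤ) :
    Fin q ⊕ Fin (m + 1) → MvPolynomial (Fin (N + 1)) (MvPolynomial (Fin r) K) :=
  Sum.elim (fun l => U l 0 * U l (Fin.last R))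
    (fun b => ∑ j, C ((L b j : ℤ) : MvPolynomial (Fin r) K) * X j)

theorem divs_inr {K : Subfield ℂ} {r N q m R : ℕ}
    (U : Fin q → Fin (R + 1) → MvPolynomial (Fin (N + 1)) (MvPolynomial (Fin r) K))
    (L : Fin (m + 1) → Fin (N + 1) → ℤ) (t : Fin r → ℂ) (y : Fin (N + 1) → ℂ) (b : Fin (m + 1)) :
    eval₂ (evM K t) y (divs U L (Sum.inr b)) = ∑ j, (L b j : ℂ) * y j := by
  rw [divs, Sum.elim_inr, ← coe_eval₂Hom, map_sum]
  refine Finset.sum_congr rfl fun j _ => ?_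
  rw [map_mul, coe_eval₂Hom, eval₂_C, eval₂_X, map_intCast]

theorem divs_inl {K : Subfield ℂ} {r N q m R : ℕ}
    (U : Fin q → Fin (R + 1) → MvPolynomial (Fin (N + 1)) (MvPolynomial (Fin r) K))
    (L : Fin (m + 1) → Fin (N + 1) → ℤ) (t : Fin r → ℂ) (y : Fin (N + 1) → ℂ) (l : Fin q) :
    eval₂ (evM K t) y (divs U L (Sum.inl l)) =
      eval₂ (evM K t) y (U l 0) * eval₂ (evM K t) y (U l (Fin.last R)) := by
  rw [divs, Sum.elim_inl, eval₂_mul]

/-- Families which degenerate along a hypersurface: the members with integral parameters which are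
near to it at a suitable prime. -/
theorem famE (K : Subfield ℂ) (hK : ∀ x ∈ K, IsAlgebraic ℚ x) (κ : Type) [Finite κ]
    (r N q m R e : ℕ) (hR : R.Prime)
    (G : κ → MvPolynomial (Fin (N + 1)) (MvPolynomial (Fin r) K))
    (hG : ∀ k, ∃ w, (G k).IsHomogeneous w)
    (A₄ A₆ : MvPolynomial (Fin (N + 1)) (MvPolynomial (Fin r) K))
    (h₄ : A₄.IsHomogeneous (4 * e)) (h₆ : A₆.IsHomogeneous (6 * e)) (d : Fin q → ℕ)
    (F U : Fin q → Fin (R + 1) → MvPolynomial (Fin (N + 1)) (MvPolynomial (Fin r) K))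
    (hU : ∀ l (h : Fin (R + 1)), (U l h).IsHomogeneous (d l + 2 * e * (h : ℕ)))
    (D E : MvPolynomial (Fin r) ℤ) (f : Fin q → ℕ) (s : Fin q → Fin (R + 1) → ℕ)
    (hF : ∀ l h, F l h = C (MvPolynomial.map (Int.castRingHom K) D) ^ s l h * U l h)
    (hs0 : ∀ l, s l 0 = f l) (hsl : ∀ l, s l (Fin.last R) = 0)
    (hsm : ∀ l (h : Fin (R + 1)), f l * (R - (h : ℕ)) ≤ R * s l h) (hfR : ∀ l, R < 2 * f l)
    (hdis : ∀ l l', l ≠ l' → ¬ f l ≡ f l' [MOD R]) (L : Fin (m + 1) → Fin (N + 1) → ℤ)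
    (hpos : ∀ t : Fin r → ℂ, aeval t D = 0 → aeval t E ≠ 0 →
      ∀ I : Finset (Fin q ⊕ Fin (m + 1)), I.card = m + 1 → ∀ y, OnB t G y →
        ∃ i ∈ I, eval₂ (evM K t) y (divs U L i) ≠ 0) :
    ∃ Q : ℕ, ∀ t : Fin r → ℤ, (∃ p : ℕ, p.Prime ∧ Q < p ∧ (p : ℤ) ∣ eval t D ∧
      ¬ (p : ℤ) ∣ eval t E ∧ ¬ R ∣ padicValInt p (eval t D)) →
      ∀ y, OnB (fun j => (t j : ℂ)) G y →
      ∀ (S : EndRing (eval₂ (evM K fun j => (t j : ℂ)) y A₄) (eval₂ (evM K fun j => (t j : ℂ)) y A₆))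
        (P : Fin q → (crv (eval₂ (evM K fun j => (t j : ℂ)) y A₄)
          (eval₂ (evM K fun j => (t j : ℂ)) y A₆)).Point),
        (∀ l, OnMs (fun h => eval₂ (evM K fun j => (t j : ℂ)) y (F l h)) (P l)) →
        ∀ Λ : Submodule S.O (Fin q → S.O),
        (∀ a ∈ Λ, ∃ n : ℕ, 0 < n ∧ n • ∑ l, S.act (a l) (P l) = 0) →
        ∀ (j0 : Fin (N + 1)) (T : Finset (Fin (N + 1))),
          AlgebraicIndependent ℚ (fun j : T => y j / y j0) →
          T.card + Module.finrank S.O Λ ≤ m := by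
  classical
  let k := algebraicClosure K ℂ
  have hcl : IsAlgClosure K k := inferInstance
  have hac : IsAlgClosed k := hcl.isAlgClosed
  let Bf : Bool ⊕ (Fin q × Fin (R + 1)) → MvPolynomial (Fin (N + 1)) (MvPolynomial (Fin r) K) :=
    Sum.elim (fun b => bif b then A₄ else A₆) (fun x => U x.1 x.2)
  obtain ⟨W, hW, hgood⟩ := goodQ (K := K) (k := k) (m := m) G hG (divs U L) Bf D E
    (fun t hD hE I hI y h1 h2 => by
      by_contra h0
      obtain ⟨i, hi, h3⟩ := hpos t hD hE I hI y ⟨h0, h1⟩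
      exact h3 (h2 i hi))
  have hWalg : ∀ z : k, IsAlgebraic ℚ (algebraMap k ℂ z) := by
    intro z
    have h1 : IsAlgebraic K (algebraMap k ℂ z) := mem_algebraicClosure_iff.1 z.2
    have h2 : Algebra.IsAlgebraic ℚ K := ⟨fun x => by
      have h3 := hK x x.2
      exact (isAlgebraic_algebraMap_iff (R := ℚ) (A := ℂ) (algebraMap K ℂ).injective).1 h3⟩
    exact h1.restrictScalars ℚ
  have := hW.to_subtype
  obtain ⟨DW, hDW, hDW'⟩ := alg_mem (fun z : W => algebraMap k ℂ (z : k)) fun z => hWalg z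
  refine ⟨DW, ?_⟩
  rintro t ⟨p, hp, hpQ, hpD, hpE, hpR⟩
  obtain ⟨tc, htc⟩ : ∃ tc : Fin r → ℂ, tc = fun j => (t j : ℂ) := ⟨_, rfl⟩
  rw [← htc]
  rintro y hy S P hP Λ hΛ j0 T hT
  obtain ⟨hy0, hyG'⟩ := hy
  have hyG : ∀ i, eval₂ (evM K tc) y (G i) = 0 := hyG'
  have hevD : ∀ P : MvPolynomial (Fin r) ℤ, aeval tc P = ((eval t P : ℤ) : ℂ) := fun P => by
    rw [htc, aeval_int]
  have hpDW : ¬ p ∣ DW := fun h => by
    have := Nat.le_of_dvd hDW h
    omega
  have hDne : eval t D ≠ 0 := by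
    intro h
    rw [h, padicValInt.zero] at hpR
    exact hpR (dvd_zero _)
  set δ : ℂ := ((eval t D : ℤ) : ℂ) with hδ
  have hδ0 : δ ≠ 0 := Int.cast_ne_zero.2 hDne
  set k0 : ℕ := padicValInt p (eval t D) with hk0
  -- the data at a place above `p`
  have hplace : ∀ V : ValuationSubring ℂ, (p : ℂ) ∈ V.nonunits → V.valuation (p : ℂ) < 1 ∧
      V.valuation δ = V.valuation (p : ℂ) ^ k0 ∧ ∀ y : Fin (N + 1) → ℂ, y ≠ 0 →
      (∀ i, eval₂ (evM K tc) y (G i) = 0) →
        ∃ c : ℂ, c ≠ 0 ∧ (∀ j, (c • y) j ∈ V) ∧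
          (∀ i, eval₂ (evM K tc) (c • y) (divs U L i) ∈ V) ∧
          (∀ i, eval₂ (evM K tc) (c • y) (Bf i) ∈ V) ∧
          ∀ I : Finset (Fin q ⊕ Fin (m + 1)), I.card = m + 1 → ∃ i ∈ I,
            V.valuation (eval₂ (evM K tc) (c • y) (divs U L i)) = 1 := by
    intro V hV
    have hVp : V.valuation (p : ℂ) < 1 := by rwa [ValuationSubring.mem_nonunits_iff] at hV
    refine ⟨hVp, ?_, fun y hy0 hyG => ?_⟩
    · rw [hδ, v_int_pow hp hVp hDne, hk0, padicValInt, Nat.factorization_def _ hp]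
    · refine hgood V (fun z hz => hDW' p hp hpDW V hV ⟨z, hz⟩) tc (fun j => ?_) ?_ ?_
        y hy0 hyG
      · rw [htc]
        exact intCast_mem V _
      · rw [hevD]
        exact v_int_lt hVp hpD
      · rw [hevD]
        exact v_int_one hp hVp hpE
  -- no point of the base on all the linear forms
  have hlin : ∀ y : Fin (N + 1) → ℂ, (∀ i, eval₂ (evM K tc) y (G i) = 0) →
      (∀ b, ∑ j, (L b j : ℂ) * y j = 0) → y = 0 := by
    intro y hyG hyL
    by_contra hy0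
    obtain ⟨V, hV, -⟩ := exists_val_arch (fun i : Empty => (i.elim : ℂ))
      (algebraicIndependent_empty_type) hp
    obtain ⟨-, -, h1⟩ := hplace V hV
    obtain ⟨c, -, -, -, -, hI⟩ := h1 y hy0 hyG
    obtain ⟨i, hi, h2⟩ := hI (Finset.univ.image Sum.inr) (by
      rw [Finset.card_image_of_injective _ Sum.inr_injective, Finset.card_univ, Fintype.card_fin])
    obtain ⟨b, -, rfl⟩ := Finset.mem_image.1 hi
    rw [divs_inr, lf_smul, hyL b, mul_zero, map_zero] at h2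
    exact zero_ne_one h2
  -- the member of the family
  let Gt : κ → MvPolynomial (Fin (N + 1)) ℂ := fun i => MvPolynomial.map (evM K tc) (G i)
  have hGt : ∀ i (y : Fin (N + 1) → ℂ), eval y (Gt i) = eval₂ (evM K tc) y (G i) := fun i y => by
    rw [eval_map]
  obtain ⟨D1, hD1, hgd⟩ := good_prime Gt (fun i u => by
      rw [coeff_map, evM_apply]
      have h2 : Algebra.IsAlgebraic ℚ K := ⟨fun x => by
        have h3 := hK x x.2
        exact (isAlgebraic_algebraMap_iff (R := ℚ) (A := ℂ) (algebraMap K ℂ).injective).1 h3⟩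
      have h3 : aeval tc ((G i).coeff u) = algebraMap K ℂ (eval (fun j => (t j : K))
          ((G i).coeff u)) := by
        have h4 := MvPolynomial.aeval_algebraMap_apply ℂ (fun j => (t j : K)) ((G i).coeff u)
        have h5 : (fun j => algebraMap K ℂ ((t j : ℤ) : K)) = tc := by
          rw [htc]
          funext j
          rw [map_intCast]
        rw [← h5]
        exact h4
      rw [h3]
      exact hK _ (SetLike.coe_mem _))
    (fun i => by
      obtain ⟨w, hw⟩ := hG i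
      exact ⟨w, hw.map _⟩) L
    (fun y h1 h2 => hlin y (fun i => by rw [← hGt]; exact h1 i) h2)
  let Y : Set (Fin (N + 1) → ℂ) := {y | ∀ i, eval y (Gt i) = 0}
  have hgood' : Good Y L D1 := hgd
  have hyY : y ∈ Y := fun i => by rw [hGt]; exact hyG i
  -- a linear form which does not vanish
  obtain ⟨b0, hb0⟩ : ∃ b0 : Fin (m + 1), ∑ j, (L b0 j : ℂ) * y j ≠ 0 := by
    by_contra hcon
    push Not at hcon
    exact hy0 (hlin y hyG hcon)
  set c0 : ℂ := ∑ j, (L b0 j : ℂ) * y j with hc0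
  have hz : c0⁻¹ • y ≠ 0 := smul_ne_zero (inv_ne_zero hb0) hy0
  have hzY : c0⁻¹ • y ∈ Y := by
    intro i
    obtain ⟨w, hw⟩ := hG i
    rw [hGt, ev_smul tc hw, hyG i, mul_zero]
  have hrange : (fun b : Fin (m + 1) => ∑ i, (L b i : ℂ) * (c0⁻¹ • y) i) =
      fun b : Fin (m + 1) => c0⁻¹ * ∑ j, (L b j : ℂ) * y j := by
    funext b
    rw [lf_smul]
  have h3 := rk_ratio hD1 hgood' hz hzY j0 T (by
    convert hT using 1
    funext j
    rw [Pi.smul_apply, Pi.smul_apply, smul_eq_mul, smul_eq_mul,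
      mul_div_mul_left _ _ (inv_ne_zero hb0)])
  rw [hrange] at h3
  obtain ⟨Sb, hS1, hS2⟩ := exists_sub _ _ h3
  rw [← hS1]
  -- the place
  have hp0 : (p : ℂ) ≠ 0 := by exact_mod_cast hp.ne_zero
  have hS' := Pool.Agent.W466.EP.algInd_smul hS2 (fun _ => (p : ℚ)⁻¹)
    (fun _ => inv_ne_zero (by exact_mod_cast hp.ne_zero))
  obtain ⟨V, hVp, hVx, harch⟩ := exists_val_arch _ hS' hp
  obtain ⟨hvp, hvδ, hpl⟩ := hplace V hVp
  set v := V.valuation with hv
  have hvp0 : v (p : ℂ) ≠ 0 := (Valuation.ne_zero_iff _).2 hp0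
  obtain ⟨c, hc, hcy, hcA, hcB, hcI⟩ := hpl y hy0 hyG
  have hle : ∀ i, v (eval₂ (evM K tc) (c • y) (divs U L i)) ≤ 1 := fun i =>
    (ValuationSubring.valuation_le_one_iff V _).2 (hcA i)
  have hBle : ∀ i, v (eval₂ (evM K tc) (c • y) (Bf i)) ≤ 1 := fun i =>
    (ValuationSubring.valuation_le_one_iff V _).2 (hcB i)
  have hk1 : 1 ≤ k0 := by
    rcases Nat.eq_zero_or_pos k0 with h | h
    · rw [h] at hpR
      exact absurd (dvd_zero _) hpR
    · exact h
  have hvδ1 : v δ < 1 := by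
    rw [hvδ]
    exact pow_lt_one₀ zero_le hvp (by omega)
  -- the linear forms of `Sb`
  have hSb : ∀ b ∈ Sb, v (eval₂ (evM K tc) (c • y) (divs U L (Sum.inr b))) < 1 := by
    intro b hbS
    have h3 := (ValuationSubring.valuation_le_one_iff V _).2 (hVx ⟨b, hbS⟩)
    rw [← hv] at h3
    have h5 := hle (Sum.inr b0)
    rw [divs_inr] at h5 ⊢
    have h4 : (∑ j, (L b j : ℂ) * (c • y) j) = (p : ℂ) *
        (algebraMap ℚ ℂ ((p : ℚ)⁻¹) * (c0⁻¹ * ∑ j, (L b j : ℂ) * y j)) *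
        (∑ j, (L b0 j : ℂ) * (c • y) j) := by
      rw [lf_smul, lf_smul, map_inv₀, map_natCast, ← hc0]
      field_simp
    rw [h4, map_mul, map_mul]
    calc v (p : ℂ) * v (algebraMap ℚ ℂ ((p : ℚ)⁻¹) * (c0⁻¹ * ∑ j, (L b j : ℂ) * y j)) *
        v (∑ j, (L b0 j : ℂ) * (c • y) j)
        ≤ v (p : ℂ) * 1 * 1 := mul_le_mul' (mul_le_mul' le_rfl h3) h5
      _ < 1 := by rwa [mul_one, mul_one]
  -- integrality of the coefficients of the curve
  have hz0 : c ^ e ≠ 0 := pow_ne_zero e hc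
  have hvA : v ((c ^ e) ^ 4 * eval₂ (evM K tc) y A₄) ≤ 1 := by
    have h1 := hBle (Sum.inl true)
    change v (eval₂ (evM K tc) (c • y) A₄) ≤ 1 at h1
    rwa [ev_smul tc h₄, mul_comm 4 e, pow_mul] at h1
  have hvB : v ((c ^ e) ^ 6 * eval₂ (evM K tc) y A₆) ≤ 1 := by
    have h1 := hBle (Sum.inl false)
    change v (eval₂ (evM K tc) (c • y) A₆) ≤ 1 at h1
    rwa [ev_smul tc h₆, mul_comm 6 e, pow_mul] at h1
  obtain ⟨π, hπ⟩ := IsAlgClosed.exists_pow_nat_eq (p : ℂ) hR.pos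
  have hρR : v (p : ℂ) = v π ^ R := by rw [← hπ, map_pow]
  have hρ0 : 0 < v π := by
    refine zero_lt_iff.2 fun h0 => ?_
    rw [h0, zero_pow hR.ne_zero] at hρR
    exact hvp0 hρR
  -- the multisections
  let U2 : Finset (Fin q) := Finset.univ.filter fun l =>
    v (eval₂ (evM K tc) (c • y) (divs U L (Sum.inl l))) ≠ 1
  have hmsv : ∀ l, l ∉ U2 → v (xx (scl (u := c ^ e) hz0 (P l))) * v π ^ (k0 * f l) = 1 := by
    intro l hl
    have h1 : v (eval₂ (evM K tc) (c • y) (divs U L (Sum.inl l))) = 1 := by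
      by_contra h4
      exact hl (Finset.mem_filter.2 ⟨Finset.mem_univ _, h4⟩)
    rw [divs_inl, map_mul] at h1
    have hm : ∀ h : Fin (R + 1), v (eval₂ (evM K tc) (c • y) (U l h)) ≤ 1 := fun h =>
      hBle (Sum.inr (l, h))
    have h0 : v (eval₂ (evM K tc) (c • y) (U l 0)) = 1 := by
      refine le_antisymm (hm 0) ?_
      by_contra h
      push Not at h
      have h2 := (mul_le_of_le_one_right' (hm (Fin.last R))).trans_lt h
      rw [h1] at h2
      exact lt_irrefl _ h2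
    have hl' : v (eval₂ (evM K tc) (c • y) (U l (Fin.last R))) = 1 := by
      rwa [h0, one_mul] at h1
    have h2 := ms_val V hR.pos hδ0 hvδ1 hc (d := d l) (e := e) (f := f l)
      (fun h => eval₂ (evM K tc) y (F l h)) (fun h => eval₂ (evM K tc) (c • y) (U l h)) (s l)
      (fun h => by
        rw [ev_smul tc (hU l h), hF l h, eval₂_mul, eval₂_pow, eval₂_C, evM_int, hevD, ← hδ]
        ring) (hs0 l) (hsl l) (hsm l) h0 hl' hm (P l) (hP l)
    have h3 : v δ ^ f l = (v π ^ R) ^ (k0 * f l) := by rw [hvδ, hρR, ← pow_mul (v π ^ R)]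
    refine root_pow hR.pos ?_
    rw [← h3]
    exact h2
  have hU2 : Module.finrank S.O Λ ≤ U2.card := by
    by_contra hlt
    push Not at hlt
    obtain ⟨a, haΛ, ha0, haU⟩ := exists_relO Λ U2 hlt
    obtain ⟨n, hn, hrel⟩ := hΛ a haΛ
    refine rel_placeE hp hVp harch hz0 hvA hvB S hρR hR.pos hρ0 P U2ᶜ (fun l => k0 * f l) ?_
      ?_ ?_ a ha0 ?_ hn hrel
    · intro l hl
      exact hmsv l (Finset.mem_compl.1 hl)
    · intro l _
      have h1 := hfR l
      calc R < 2 * f l := h1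
        _ = 2 * (1 * f l) := by rw [one_mul]
        _ ≤ 2 * (k0 * f l) := Nat.mul_le_mul_left _ (Nat.mul_le_mul_right _ hk1)
    · intro l _ l' _ hne hmod
      refine hdis l l' hne (Nat.ModEq.cancel_left_of_coprime (c := k0) ?_ hmod)
      exact (Nat.Prime.coprime_iff_not_dvd hR).2 hpR
    · intro l hl
      rw [Finset.mem_compl, not_not] at hl
      exact haU l hl
  have hcard : (U2.disjSum Sb).card ≤ m := by
    by_contra hcon
    push Not at hcon
    obtain ⟨I, hIE, hIc⟩ := Finset.exists_subset_card_eq (Nat.succ_le_of_lt hcon)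
    obtain ⟨i, hi, h1⟩ := hcI I hIc
    rcases i with l | b
    · have h2 := hIE hi
      rw [Finset.inl_mem_disjSum] at h2
      exact (Finset.mem_filter.1 h2).2 h1
    · have h2 := hIE hi
      rw [Finset.inr_mem_disjSum] at h2
      exact (hSb b h2).ne h1
  rw [Finset.card_disjSum] at hcard
  omega

/-- The equations of the multisections of the members near to the degenerate ones are not
trivial. -/
theorem famFin (K : Subfield ℂ) (hK : ∀ x ∈ K, IsAlgebraic ℚ x) (κ : Type) [Finite κ]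
    (r N q R e : ℕ)
    (G : κ → MvPolynomial (Fin (N + 1)) (MvPolynomial (Fin r) K))
    (hG : ∀ k, ∃ w, (G k).IsHomogeneous w) (d : Fin q → ℕ)
    (F U : Fin q → Fin (R + 1) → MvPolynomial (Fin (N + 1)) (MvPolynomial (Fin r) K))
    (hU : ∀ l (h : Fin (R + 1)), (U l h).IsHomogeneous (d l + 2 * e * (h : ℕ)))
    (D E : MvPolynomial (Fin r) ℤ) (s : Fin q → Fin (R + 1) → ℕ)
    (hF : ∀ l h, F l h = C (MvPolynomial.map (Int.castRingHom K) D) ^ s l h * U l h)
    (hfin : ∀ t : Fin r → ℂ, aeval t D = 0 → aeval t E ≠ 0 → ∀ y, OnB t G y →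
      ∀ l, ∃ h, eval₂ (evM K t) y (U l h) ≠ 0) :
    ∃ Q : ℕ, ∀ t : Fin r → ℤ, (∃ p : ℕ, p.Prime ∧ Q < p ∧ (p : ℤ) ∣ eval t D ∧
      ¬ (p : ℤ) ∣ eval t E ∧ eval t D ≠ 0) →
      ∀ y, OnB (fun j => (t j : ℂ)) G y → ∀ l, ∃ h,
        eval₂ (evM K fun j => (t j : ℂ)) y (F l h) ≠ 0 := by
  classical
  let k := algebraicClosure K ℂ
  have hcl : IsAlgClosure K k := inferInstance
  have hac : IsAlgClosed k := hcl.isAlgClosed
  have hgood := fun l : Fin q => goodQ (K := K) (k := k) (m := R) (β := Empty) G hG (U l)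
    (fun b => b.elim) D E
    (fun t hD hE I hI y h1 h2 => by
      by_contra h0
      obtain ⟨h, h3⟩ := hfin t hD hE y ⟨h0, h1⟩ l
      have hIu : I = Finset.univ := by
        rw [← Finset.card_eq_iff_eq_univ, hI, Fintype.card_fin]
      exact h3 (h2 h (by rw [hIu]; exact Finset.mem_univ h)))
  choose W hW hgood using hgood
  have hWalg : ∀ z : k, IsAlgebraic ℚ (algebraMap k ℂ z) := by
    intro z
    have h1 : IsAlgebraic K (algebraMap k ℂ z) := mem_algebraicClosure_iff.1 z.2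
    have h2 : Algebra.IsAlgebraic ℚ K := ⟨fun x => by
      have h3 := hK x x.2
      exact (isAlgebraic_algebraMap_iff (R := ℚ) (A := ℂ) (algebraMap K ℂ).injective).1 h3⟩
    exact h1.restrictScalars ℚ
  have hWf : (⋃ l, W l).Finite := Set.finite_iUnion hW
  have := hWf.to_subtype
  obtain ⟨DW, hDW, hDW'⟩ := alg_mem (fun z : (⋃ l, W l : Set k) => algebraMap k ℂ (z : k))
    fun z => hWalg z
  refine ⟨DW, ?_⟩
  rintro t ⟨p, hp, hpQ, hpD, hpE, hDne⟩ y ⟨hy0, hyG⟩ l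
  have hpDW : ¬ p ∣ DW := fun h => by
    have := Nat.le_of_dvd hDW h
    omega
  obtain ⟨V, hV, -⟩ := exists_val_arch (fun i : Empty => (i.elim : ℂ))
    (algebraicIndependent_empty_type) hp
  have hVp : V.valuation (p : ℂ) < 1 := by rwa [ValuationSubring.mem_nonunits_iff] at hV
  obtain ⟨c, hc, -, -, -, hI⟩ := hgood l V (fun z hz => hDW' p hp hpDW V hV
    ⟨z, Set.mem_iUnion.2 ⟨l, hz⟩⟩) (fun j => (t j : ℂ)) (fun j => intCast_mem V _) (by
      rw [aeval_int]
      exact v_int_lt hVp hpD) (by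
      rw [aeval_int]
      exact v_int_one hp hVp hpE) y hy0 hyG
  obtain ⟨h, -, h1⟩ := hI Finset.univ (by rw [Finset.card_univ, Fintype.card_fin])
  refine ⟨h, fun h2 => ?_⟩
  rw [hF l h, eval₂_mul, eval₂_pow, eval₂_C, evM_int, aeval_int] at h2
  rcases mul_eq_zero.1 h2 with h3 | h3
  · exact pow_ne_zero _ (Int.cast_ne_zero.2 hDne) h3
  · rw [ev_smul _ (hU l h), h3, mul_zero, map_zero] at h1
    exact zero_ne_one h1

end Pool.Agent.Q170.PK
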