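import Pool.Agent.Q170.ZP.MultiNear

/-!
Families with several parameters which degenerate along a hypersurface `D = 0`: valuation rings
which are good for the members near to the degenerate ones, with normalized coordinates
(helper file, a variant of `Pool.Agent.Q170.ZP.MultiNear`).
-/

set_option autoImplicit false

open Function MvPolynomial Pool.Agent.W466.ZC Pool.Agent.TH526.ZL

namespace Pool.Agent.Q170.PK

open Pool.Agent.Q170.ZP.Multi

variable {K : Type} [Field K] [Algebra K ℂ] {k : Type} [Field k] [Algebra k ℂ] [Algebra K k]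
  [IsScalarTower K k ℂ] {r : ℕ}

/-- Good valuation rings for the members of a family which are near to the degenerate ones. -/
theorem goodQ [IsAlgClosed k] {τ : Type*} [Fintype τ] {κ : Type} [Finite κ]
    {ι : Type} [Fintype ι] [DecidableEq ι] {β : Type} [Finite β] {m : ℕ}
    (G : κ → MvPolynomial τ (MvPolynomial (Fin r) K))
    (hhom : ∀ i, ∃ e, (G i).IsHomogeneous e) (A : ι → MvPolynomial τ (MvPolynomial (Fin r) K))
    (B : β → MvPolynomial τ (MvPolynomial (Fin r) K))
    (D E : MvPolynomial (Fin r) ℤ)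
    (hdis : ∀ (t : Fin r → ℂ), aeval t D = 0 → aeval t E ≠ 0 →
      ∀ I : Finset ι, I.card = m + 1 → ∀ y : τ → ℂ,
      (∀ i, eval₂ (evM K t) y (G i) = 0) →
      (∀ i ∈ I, eval₂ (evM K t) y (A i) = 0) → y = 0) :
    ∃ W : Set k, W.Finite ∧ ∀ V : ValuationSubring ℂ, (∀ z ∈ W, algebraMap k ℂ z ∈ V) →
      ∀ (t : Fin r → ℂ), (∀ j, t j ∈ V) → V.valuation (aeval t D) < 1 →
      V.valuation (aeval t E) = 1 →
      ∀ y : τ → ℂ, y ≠ 0 → (∀ i, eval₂ (evM K t) y (G i) = 0) →
        ∃ c : ℂ, c ≠ 0 ∧ (∀ j, (c • y) j ∈ V) ∧ (∀ i, eval₂ (evM K t) (c • y) (A i) ∈ V) ∧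
          (∀ i, eval₂ (evM K t) (c • y) (B i) ∈ V) ∧
          ∀ I : Finset ι, I.card = m + 1 → ∃ i ∈ I,
            V.valuation (eval₂ (evM K t) (c • y) (A i)) = 1 := by
  classical
  have := Fintype.ofFinite κ
  have := Fintype.ofFinite β
  have hcert := fun (I : {I : Finset ι // I.card = m + 1}) (j : τ) =>
    certP (k := k) (fun i => flat k (G i))
      (fun b : Option I.1 => Option.elim b (ipol k D) (fun i : I.1 => flat k (A i)))
      (ipol k E * X (Sum.inr j)) (by
        intro z hG hF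
        obtain ⟨t, y, rfl⟩ : ∃ t y, z = Sum.elim t y :=
          ⟨fun a => z (Sum.inl a), fun a => z (Sum.inr a), by
            funext a
            rcases a with a | a <;> rfl⟩
        rw [map_mul, aeval_X, Sum.elim_inr, aeval_ipol]
        by_cases hE : aeval t E = 0
        · rw [hE, zero_mul]
        · have hD : aeval t D = 0 := by
            have h1 := hF none
            simp only [Option.elim_none] at h1
            rwa [aeval_ipol] at h1
          have h2 := hdis t hD hE I.1 I.2 y (fun i => by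
            have h3 := hG i
            rwa [aeval_flat] at h3) (fun i hi => by
            have h3 := hF (some ⟨i, hi⟩)
            simp only [Option.elim_some] at h3
            rwa [aeval_flat] at h3)
          rw [h2, Pi.zero_apply, mul_zero])
  choose M' U hU using hcert
  let W : Set k := (⋃ q : {I : Finset ι // I.card = m + 1} × τ,
      ⋃ b : Option q.1.1, coefsP (U q.1 q.2 b)) ∪
    ((⋃ i, coefsP (flat k (A i))) ∪ (⋃ i, coefsP (flat k (B i))))
  have hWfin : W.Finite := by
    refine Set.Finite.union (Set.finite_iUnion fun q => Set.finite_iUnion fun b =>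
      coefsP_finite _) (Set.Finite.union (Set.finite_iUnion fun i => coefsP_finite _)
      (Set.finite_iUnion fun i => coefsP_finite _))
  refine ⟨W, hWfin, fun V hW => ?_⟩
  intro t htV hDl hEl y hy0 hyG
  have hUV : ∀ I j b, ∀ u ∈ (U I j b).support, algebraMap k ℂ ((U I j b).coeff u) ∈ V := by
    intro I j b u hu
    exact hW _ (Or.inl (Set.mem_iUnion.2 ⟨(I, j), Set.mem_iUnion.2 ⟨b, ⟨u, hu, rfl⟩⟩⟩))
  have hmem : ∀ z : τ → ℂ, (∀ j, z j ∈ V) → ∀ j : Fin r ⊕ τ, Sum.elim t z j ∈ V := by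
    intro z hz j
    rcases j with j | j
    · exact htV j
    · exact hz j
  have hAV : ∀ (z : τ → ℂ), (∀ j, z j ∈ V) → ∀ i, eval₂ (evM K t) z (A i) ∈ V := by
    intro z hz i
    rw [← aeval_flat (k := k)]
    exact aeval_mem V _ (fun u hu => hW _ (Or.inr (Or.inl (Set.mem_iUnion.2 ⟨i, ⟨u, hu, rfl⟩⟩))))
      (hmem z hz)
  have hBV : ∀ (z : τ → ℂ), (∀ j, z j ∈ V) → ∀ i, eval₂ (evM K t) z (B i) ∈ V := by
    intro z hz i
    rw [← aeval_flat (k := k)]
    exact aeval_mem V _ (fun u hu => hW _ (Or.inr (Or.inr (Set.mem_iUnion.2 ⟨i, ⟨u, hu, rfl⟩⟩))))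
      (hmem z hz)
  set v := V.valuation with hv
  have hne : (Finset.univ : Finset τ).Nonempty := by
    by_contra h
    rw [Finset.not_nonempty_iff_eq_empty, Finset.univ_eq_empty_iff] at h
    exact hy0 (funext fun j => (h.false j).elim)
  obtain ⟨j0, -, hj0⟩ := Finset.exists_max_image Finset.univ (fun j => v (y j)) hne
  have hyj0 : y j0 ≠ 0 := by
    intro h
    apply hy0
    funext j
    have h1 := hj0 j (Finset.mem_univ j)
    simp only [h, map_zero, le_zero_iff] at h1
    exact (map_eq_zero v).1 h1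
  set z := (y j0)⁻¹ • y with hz
  have hzV : ∀ j, z j ∈ V := by
    intro j
    rw [← ValuationSubring.valuation_le_one_iff, hz, Pi.smul_apply, smul_eq_mul, map_mul, map_inv₀]
    have h1 := hj0 j (Finset.mem_univ j)
    have h2 : v (y j0) ≠ 0 := (map_ne_zero v).2 hyj0
    calc (v (y j0))⁻¹ * v (y j) ≤ (v (y j0))⁻¹ * v (y j0) := mul_le_mul_right h1 _
      _ = 1 := inv_mul_cancel₀ h2
  have hzG : ∀ i, eval₂ (evM K t) z (G i) = 0 := by
    intro i
    obtain ⟨e, he⟩ := hhom i
    rw [hz, ev_smul t he, hyG i, mul_zero]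
  refine ⟨(y j0)⁻¹, inv_ne_zero hyj0, hzV, hAV z hzV, hBV z hzV, ?_⟩
  intro I hI
  by_contra hcon
  push Not at hcon
  have hlt : ∀ i ∈ I, v (eval₂ (evM K t) z (A i)) < 1 := by
    intro i hi
    refine lt_of_le_of_ne ?_ (hcon i hi)
    rw [ValuationSubring.valuation_le_one_iff]
    exact hAV z hzV i
  have h1 := hU ⟨I, hI⟩ j0 (Sum.elim t z) (fun i => by rw [aeval_flat]; exact hzG i)
  have h2 : z j0 = 1 := by
    rw [hz, Pi.smul_apply, smul_eq_mul, inv_mul_cancel₀ hyj0]
  rw [map_mul, aeval_X, Sum.elim_inr, aeval_ipol, h2, mul_one] at h1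
  have h3 : v (∑ b : Option I, aeval (Sum.elim t z) (U ⟨I, hI⟩ j0 b) *
      aeval (Sum.elim t z) (Option.elim b (ipol k D) (fun i : I => flat k (A i)))) < 1 := by
    refine Valuation.map_sum_lt _ one_ne_zero fun b _ => ?_
    rw [map_mul]
    refine (mul_le_of_le_one_left' ((ValuationSubring.valuation_le_one_iff _ _).2
      (aeval_mem V _ (hUV ⟨I, hI⟩ j0 b) (hmem z hzV)))).trans_lt ?_
    rcases b with _ | i
    · simp only [Option.elim_none]
      rw [aeval_ipol]
      exact hDl
    · simp only [Option.elim_some]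
      rw [aeval_flat]
      exact hlt i i.2
  rw [← h1, map_pow, hEl, one_pow] at h3
  exact lt_irrefl _ h3

/-- The roots of an equation whose first and last coefficient are units. -/
theorem root_unit (V : ValuationSubring ℂ) {R : ℕ} (φ : Fin (R + 1) → ℂ)
    (h0 : V.valuation (φ 0) = 1) (hlast : V.valuation (φ (Fin.last R)) = 1)
    (hmid : ∀ h, V.valuation (φ h) ≤ 1) {X : ℂ}
    (hX : ∑ h : Fin (R + 1), φ h * X ^ (R - (h : ℕ)) = 0) : V.valuation X = 1 := by
  classical
  set v := V.valuation with hv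
  rcases lt_trichotomy (v X) 1 with hlt | heq | hgt
  · exfalso
    have h2 := Finset.add_sum_erase Finset.univ (fun h : Fin (R + 1) => φ h * X ^ (R - (h : ℕ)))
      (Finset.mem_univ (Fin.last R))
    rw [hX, Fin.val_last, Nat.sub_self, pow_zero, mul_one] at h2
    have h1 : v (∑ h ∈ Finset.univ.erase (Fin.last R), φ h * X ^ (R - (h : ℕ))) < 1 := by
      refine Valuation.map_sum_lt _ one_ne_zero fun h hh => ?_
      rw [map_mul, map_pow]
      refine (mul_le_of_le_one_left' (hmid h)).trans_lt (pow_lt_one₀ zero_le hlt ?_)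
      have h3 : (h : ℕ) ≠ R := fun h4 => Finset.ne_of_mem_erase hh (Fin.ext h4)
      have := h.2
      omega
    rw [eq_neg_of_add_eq_zero_right h2, Valuation.map_neg, hlast] at h1
    exact lt_irrefl _ h1
  · exact heq
  · exfalso
    have h2 := Finset.add_sum_erase Finset.univ (fun h : Fin (R + 1) => φ h * X ^ (R - (h : ℕ)))
      (Finset.mem_univ 0)
    rw [hX, Fin.val_zero, Nat.sub_zero] at h2
    have hX0 : 0 < v X := zero_lt_one.trans hgt
    have h1 : v (∑ h ∈ Finset.univ.erase (0 : Fin (R + 1)), φ h * X ^ (R - (h : ℕ))) <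
        v X ^ R := by
      refine Valuation.map_sum_lt _ (pow_ne_zero _ hX0.ne') fun h hh => ?_
      rw [map_mul, map_pow]
      refine (mul_le_of_le_one_left' (hmid h)).trans_lt (pow_lt_pow_right₀ hgt ?_)
      have h3 : (h : ℕ) ≠ 0 := fun h4 => Finset.ne_of_mem_erase hh (Fin.ext h4)
      omega
    rw [eq_neg_of_add_eq_zero_right h2, Valuation.map_neg, map_mul, map_pow, h0, one_mul] at h1
    exact lt_irrefl _ h1

/-- The Newton polygon consists of one segment. -/
theorem root_slope (V : ValuationSubring ℂ) {R f : ℕ} (hR : 0 < R) {D : ℂ} (hD0 : D ≠ 0)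
    (hD1 : V.valuation D < 1) (s : Fin (R + 1) → ℕ) (hs0 : s 0 = f) (hsl : s (Fin.last R) = 0)
    (hsm : ∀ h : Fin (R + 1), f * (R - (h : ℕ)) ≤ R * s h) (u : Fin (R + 1) → ℂ)
    (h0 : V.valuation (u 0) = 1) (hlast : V.valuation (u (Fin.last R)) = 1)
    (hmid : ∀ h, V.valuation (u h) ≤ 1) {X : ℂ}
    (hX : ∑ h : Fin (R + 1), D ^ s h * u h * X ^ (R - (h : ℕ)) = 0) :
    V.valuation X ^ R * V.valuation D ^ f = 1 := by
  classical
  set v := V.valuation with hv
  obtain ⟨π, hπ⟩ := IsAlgClosed.exists_pow_nat_eq D hR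
  have hπ0 : π ≠ 0 := by
    rintro rfl
    rw [zero_pow hR.ne'] at hπ
    exact hD0 hπ.symm
  have hπ1 : v π < 1 := by
    by_contra hcon
    push Not at hcon
    have h1 := one_le_pow₀ hcon (n := R)
    rw [← map_pow, hπ] at h1
    exact absurd hD1 (not_lt.2 h1)
  have hkey := root_unit V (R := R) (fun h : Fin (R + 1) => π ^ (R * s h - f * (R - (h : ℕ))) * u h) (by
    change v (π ^ (R * s 0 - f * (R - ((0 : Fin (R + 1)) : ℕ))) * u 0) = 1
    rw [hs0, Fin.val_zero, Nat.sub_zero, mul_comm f R, Nat.sub_self, pow_zero, one_mul]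
    exact h0) (by
    change v (π ^ (R * s (Fin.last R) - f * (R - ((Fin.last R : Fin (R + 1)) : ℕ))) *
      u (Fin.last R)) = 1
    rw [hsl, Fin.val_last, Nat.sub_self, mul_zero, mul_zero, Nat.sub_self, pow_zero, one_mul]
    exact hlast) (fun h => by
    change v (π ^ (R * s h - f * (R - (h : ℕ))) * u h) ≤ 1
    rw [map_mul, map_pow]
    exact mul_le_one' (pow_le_one₀ zero_le hπ1.le) (hmid h)) (X := X * π ^ f) (by
    rw [← hX]
    refine Finset.sum_congr rfl fun h _ => ?_
    rw [mul_pow, ← pow_mul, ← hπ, ← pow_mul]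
    have h1 : π ^ (R * s h) = π ^ (R * s h - f * (R - (h : ℕ))) * π ^ (f * (R - (h : ℕ))) := by
      rw [← pow_add, Nat.sub_add_cancel (hsm h)]
    rw [h1]
    ring)
  change v (X * π ^ f) = 1 at hkey
  rw [map_mul, map_pow] at hkey
  have h1 : v D = v π ^ R := by rw [← hπ, map_pow]
  rw [h1, ← pow_mul, mul_comm R f, pow_mul, ← mul_pow, hkey, one_pow]

end Pool.Agent.Q170.PK
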